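import Pool.Agent.H51.MF.Base

/-! # LSUB: the largest submodule with the factorisation property. -/

set_option linter.style.haveILetI false
set_option linter.unusedSectionVars false
set_option autoImplicit false

namespace Pool.Agent.H51.MF

open Module Pool.Agent.H51.T2

universe u v

theorem LSUB_sup (K : Type v) [Field K] (A : Type u) [Ring A] [Algebra K A] (f : TC K A)
    (Y : FM K A) (U V : Submodule A Y) (hU : TT f.f (Y.sub U)) (hV : TT f.f (Y.sub V)) :
    TT f.f (Y.sub (U ⊔ V)) := by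
  have h1 : TT f.f ((Y.sub U).prod (Y.sub V)) := by
    intro k
    obtain ⟨l, hl⟩ := hU (LinearMap.fst A _ _ ∘ₗ k)
    obtain ⟨l', hl'⟩ := hV (LinearMap.snd A _ _ ∘ₗ k)
    refine ⟨l.prod l', ?_⟩
    refine LinearMap.ext fun x => Prod.ext ?_ ?_
    · exact LinearMap.congr_fun hl x
    · exact LinearMap.congr_fun hl' x
  let σ : (U × V) →ₗ[A] (U ⊔ V : Submodule A Y) :=
    (Submodule.inclusion (le_sup_left : U ≤ U ⊔ V)).coprod
      (Submodule.inclusion (le_sup_right : V ≤ U ⊔ V))
  have hσ : Function.Surjective σ := by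
    rintro ⟨y, hy⟩
    obtain ⟨a, ha, b, hb, rfl⟩ := Submodule.mem_sup.1 hy
    refine ⟨(⟨a, ha⟩, ⟨b, hb⟩), ?_⟩
    apply Subtype.ext
    simp [σ]
  exact TT.surj h1 (π := σ) hσ

theorem s_LSUB (K : Type v) [Field K] (A : Type u) [Ring A] [Algebra K A] : S_LSUB K A := by
  intro f Y
  haveI : IsNoetherian A Y := isNoetherian_of_tower K inferInstance
  have h1 : ∃ U : Submodule A Y, TT f.f (Y.sub U) := ⟨⊥, inW_bot (g := f) Y |>.1⟩
  obtain ⟨U, hU, hmax⟩ := WellFounded.has_min (wellFounded_gt (α := Submodule A Y))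
    {U | TT f.f (Y.sub U)} h1
  refine ⟨U, hU, fun V hV => ?_⟩
  have h2 := LSUB_sup K A f Y U V hU hV
  have h3 := hmax _ h2
  have h4 : U = U ⊔ V := by
    by_contra h5
    exact h3 (lt_of_le_of_ne le_sup_left h5)
  rw [h4]
  exact le_sup_right

end Pool.Agent.H51.MF
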