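import Pool.Agent.H51.MF.Base

/-! # SPL: splitting off a summand. -/

set_option linter.style.haveILetI false
set_option linter.unusedSectionVars false
set_option autoImplicit false

namespace Pool.Agent.H51.MF

open Module Pool.Agent.H51.T2

universe u v

/-- If `w ∘ u` is bijective, the target of `u` is the sum of the source and the kernel of `w`. -/
theorem SPL_dec (K : Type v) [Field K] (A : Type u) [Ring A] [Algebra K A] (P R : FM K A)
    (u : P →ₗ[A] R) (w : R →ₗ[A] P) (hb : Function.Bijective (w ∘ₗ u)) :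
    ∃ (e : P ≃ₗ[A] P) (α : R ≃ₗ[A] (P × LinearMap.ker w)), (∀ x, e x = w (u x)) ∧
      (∀ x, (α x).1 = e.symm (w x)) ∧ ∀ x, ((α x).2 : R) = x - u (e.symm (w x)) := by
  let e : P ≃ₗ[A] P := LinearEquiv.ofBijective (w ∘ₗ u) hb
  have he : ∀ x, e x = w (u x) := fun x => rfl
  have h1 : ∀ x : R, x - u (e.symm (w x)) ∈ LinearMap.ker w := by
    intro x
    rw [LinearMap.mem_ker, map_sub, ← he, LinearEquiv.apply_symm_apply, sub_self]
  let p : R →ₗ[A] LinearMap.ker w :=
    LinearMap.codRestrict _ (LinearMap.id - u ∘ₗ e.symm.toLinearMap ∘ₗ w) h1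
  let a : R →ₗ[A] (P × LinearMap.ker w) := (e.symm.toLinearMap ∘ₗ w).prod p
  let b : (P × LinearMap.ker w) →ₗ[A] R := u.coprod (LinearMap.ker w).subtype
  have hp : ∀ x, ((p x : LinearMap.ker w) : R) = x - u (e.symm (w x)) := fun x => rfl
  refine ⟨e, LinearEquiv.ofLinearMap a b ?_ ?_, he, fun x => rfl, fun x => rfl⟩
  · refine LinearMap.ext fun x => ?_
    obtain ⟨x, y, hy⟩ := x
    rw [LinearMap.mem_ker] at hy
    have h2 : w (u x + y) = e x := by rw [map_add, hy, add_zero, he]
    refine Prod.ext ?_ (Subtype.ext ?_)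
    · show e.symm (w (u x + y)) = x
      rw [h2, LinearEquiv.symm_apply_apply]
    · show (u x + y) - u (e.symm (w (u x + y))) = y
      rw [h2, LinearEquiv.symm_apply_apply, add_sub_cancel_left]
  · refine LinearMap.ext fun x => ?_
    show u (e.symm (w x)) + (x - u (e.symm (w x))) = x
    abel

theorem SPL_proj (K : Type v) [Field K] (A : Type u) [Ring A] [Algebra K A] (P R : FM K A)
    (hR : Module.Projective A R) (w : R →ₗ[A] P) (α : R ≃ₗ[A] (P × LinearMap.ker w)) :
    Module.Projective A (LinearMap.ker w) := by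
  refine Module.Projective.of_split (α.symm.toLinearMap ∘ₗ LinearMap.inr A P (LinearMap.ker w))
    (LinearMap.snd A P (LinearMap.ker w) ∘ₗ α.toLinearMap) ?_
  refine LinearMap.ext fun x => ?_
  simp

theorem s_SPL (K : Type v) [Field K] (A : Type u) [Ring A] [Algebra K A] : S_SPL K A := by
  intro g₁ g₂ u m w m' h1 h2 hb hb'
  obtain ⟨e, α, he, ha1, ha2⟩ := SPL_dec K A g₁.P g₂.P u w hb
  obtain ⟨e', β, he', hb1, hb2⟩ := SPL_dec K A g₁.Q g₂.Q m m' hb'
  haveI i1 := SPL_proj K A g₁.P g₂.P g₂.hP w α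
  haveI i2 := SPL_proj K A g₁.Q g₂.Q g₂.hQ m' β
  have h3 : ∀ x : LinearMap.ker w, (g₂.f ∘ₗ (LinearMap.ker w).subtype) x ∈ LinearMap.ker m' := by
    intro x
    rw [LinearMap.mem_ker]
    have h4 := LinearMap.congr_fun h2 x
    have h5 : w x = 0 := x.2
    simp only [LinearMap.comp_apply, h5, map_zero] at h4
    exact h4.symm
  let f₃ : LinearMap.ker w →ₗ[A] LinearMap.ker m' :=
    LinearMap.codRestrict _ (g₂.f ∘ₗ (LinearMap.ker w).subtype) h3
  let g₃ : TC K A :=
    { P := g₂.P.sub (LinearMap.ker w)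
      Q := g₂.Q.sub (LinearMap.ker m')
      hP := i1
      hQ := i2
      f := f₃ }
  have h4 : ∀ x, e'.symm (g₁.f x) = g₁.f (e.symm x) := by
    intro x
    rw [LinearEquiv.symm_apply_eq, he']
    have h5 := LinearMap.congr_fun h1 (e.symm x)
    have h6 := LinearMap.congr_fun h2 (u (e.symm x))
    simp only [LinearMap.comp_apply] at h5 h6
    rw [← h5, ← h6, ← he, LinearEquiv.apply_symm_apply]
  refine ⟨g₃, ⟨α, β, ?_⟩, ?_⟩
  · refine LinearMap.ext fun x => ?_
    have h6 := LinearMap.congr_fun h2 x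
    simp only [LinearMap.comp_apply] at h6
    refine Prod.ext ?_ (Subtype.ext ?_)
    · show g₁.f (α x).1 = (β (g₂.f x)).1
      rw [ha1, hb1, ← h6, h4]
    · show g₂.f ((α x).2 : g₂.P) = ((β (g₂.f x)).2 : g₂.Q)
      rw [ha2, hb2, ← h6, h4, map_sub]
      have h5 := LinearMap.congr_fun h1 (e.symm (w x))
      simp only [LinearMap.comp_apply] at h5
      rw [h5]
  · haveI j1 : FiniteDimensional K (LinearMap.ker w) := (g₂.P.sub (LinearMap.ker w)).i5
    haveI j2 : FiniteDimensional K (LinearMap.ker m') := (g₂.Q.sub (LinearMap.ker m')).i5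
    have h7 : finrank K g₂.P = finrank K g₁.P + finrank K (LinearMap.ker w) := by
      rw [← Module.finrank_prod]
      exact LinearEquiv.finrank_eq (α.restrictScalars K)
    have h8 : finrank K g₂.Q = finrank K g₁.Q + finrank K (LinearMap.ker m') := by
      rw [← Module.finrank_prod]
      exact LinearEquiv.finrank_eq (β.restrictScalars K)
    show finrank K g₁.P + finrank K g₁.Q + (finrank K (LinearMap.ker w) +
      finrank K (LinearMap.ker m')) = finrank K g₂.P + finrank K g₂.Q
    rw [h7, h8]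
    ring

end Pool.Agent.H51.MF
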