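import Pool.Agent.H51.MF.Base

/-! # STAR: rigid maps compatible with a given one. -/

set_option linter.style.haveILetI false
set_option linter.unusedSectionVars false
set_option autoImplicit false

namespace Pool.Agent.H51.MF

open Module Pool.Agent.H51.T2

universe u v

theorem STAR_aux (K : Type v) [Field K] [Infinite K] (A : Type u) [Ring A] [Algebra K A]
    (hR : HR K A) (f₀ h : TC K A) (h₀ : Rigid f₀.f) :
    ∀ (n : ℕ) (N : ℕ) (g : TC K A), ee K f₀.f g.f + ee K g.f f₀.f ≤ n → Rigid g.f →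
      (∀ X : FM K A, g.cl X = N * f₀.cl X + h.cl X) →
      (∀ X : FM K A, TT f₀.f X → TT h.f X → TT g.f X) →
      ∃ (N : ℕ) (g : TC K A), Rigid g.f ∧ Comp f₀ g ∧
        (∀ X : FM K A, g.cl X = N * f₀.cl X + h.cl X) ∧
        ∀ X : FM K A, TT f₀.f X → TT h.f X → TT g.f X := by
  intro n
  induction n with
  | zero =>
    intro N g hn hg hcl htt
    by_cases hN : EZero f₀.f g.f ∧ EZero g.f f₀.f
    · exact ⟨N, g, hg, hN, hcl, htt⟩
    · obtain ⟨m, hm⟩ := hR (f₀.P.prod g.P) (f₀.Q.prod g.Q)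
      have := strict (K := K) h₀ hg hm hN
      omega
  | succ n ih =>
    intro N g hn hg hcl htt
    by_cases hN : EZero f₀.f g.f ∧ EZero g.f f₀.f
    · exact ⟨N, g, hg, hN, hcl, htt⟩
    · obtain ⟨m, hm⟩ := hR (f₀.P.prod g.P) (f₀.Q.prod g.Q)
      have h1 := strict (K := K) h₀ hg hm hN
      let g' : TC K A := { P := f₀.P.prod g.P, Q := f₀.Q.prod g.Q, f := m }
      refine ih (N + 1) g' ?_ hm ?_ ?_
      · show ee K f₀.f m + ee K m f₀.f ≤ n
        omega
      · intro X
        have h2 : g'.cl X = (f₀.add g).cl X := rfl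
        rw [h2, cl_addTC, hcl X]
        push_cast
        ring
      · intro X hX hX'
        have h3 : TT (f₀.f.prodMap g.f) X := hX.prod (htt X hX hX')
        exact h3.rigid K hm

theorem s_STAR (K : Type v) [Field K] (A : Type u) [Ring A] [Algebra K A] : S_STAR K A := by
  intro hK hR f₀ h h₀
  obtain ⟨m, hm⟩ := hR h.P h.Q
  let g : TC K A := { P := h.P, Q := h.Q, f := m }
  refine STAR_aux K A hR f₀ h h₀ _ 0 g le_rfl hm ?_ ?_
  · intro X
    have h2 : g.cl X = h.cl X := rfl
    rw [h2]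
    push_cast
    ring
  · intro X _ hX
    exact hX.rigid K hm

end Pool.Agent.H51.MF
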