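import Pool.Agent.H51.MF.Base

/-! # TRC: the trace of the cokernel of a rigid map. -/

set_option linter.style.haveILetI false
set_option linter.unusedSectionVars false
set_option autoImplicit false

namespace Pool.Agent.H51.MF

open Module Pool.Agent.H51.T2

universe u v

theorem TRC_inW (K : Type v) [Field K] (A : Type u) [Ring A] [Algebra K A] (f₀ g : TC K A)
    (h₀ : Rigid f₀.f) (hc : Comp f₀ g) : InW f₀ (CW f₀ g) := by
  have h1 : TT f₀.f g.C := EZero.tt hc.1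
  have h2 : TT f₀.f (Coker f₀.f) := EZero.tt h₀
  exact ⟨tt_quot h1 _, hh_quot K (M := g.C) h2⟩

theorem TRC_zero (K : Type v) [Field K] (A : Type u) [Ring A] [Algebra K A] (f₀ g : TC K A)
    (Y : FM K A) (hY : HH g.f Y) (φ : CW f₀ g →ₗ[A] Y) : φ = 0 := by
  have h1 := hY (φ ∘ₗ (tr A f₀.C g.C).mkQ ∘ₗ (LinearMap.range g.f).mkQ) (by
    ext x
    have h0 : (LinearMap.range g.f).mkQ (g.f x) = 0 := by
      rw [Submodule.mkQ_apply, Submodule.Quotient.mk_eq_zero]
      exact ⟨x, rfl⟩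
    simp only [LinearMap.comp_apply, h0, map_zero, LinearMap.zero_apply])
  refine LinearMap.ext fun x => ?_
  obtain ⟨y, rfl⟩ := Submodule.mkQ_surjective _ x
  obtain ⟨z, rfl⟩ := Submodule.mkQ_surjective _ y
  exact LinearMap.congr_fun h1 z

theorem TRC_fac (K : Type v) [Field K] (A : Type u) [Ring A] [Algebra K A] (f₀ g : TC K A)
    (X Y : FM K A) (hX : HH f₀.f X) (ι : Y →ₗ[A] X) (hι : Function.Injective ι)
    (φ : g.C →ₗ[A] Y) : tr A f₀.C g.C ≤ LinearMap.ker φ := by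
  refine iSup_le fun ψ => ?_
  rintro _ ⟨x, rfl⟩
  rw [LinearMap.mem_ker]
  have h1 := hX (ι ∘ₗ φ ∘ₗ ψ ∘ₗ (LinearMap.range f₀.f).mkQ) (by
    ext x
    have h0 : (LinearMap.range f₀.f).mkQ (f₀.f x) = 0 := by
      rw [Submodule.mkQ_apply, Submodule.Quotient.mk_eq_zero]
      exact ⟨x, rfl⟩
    simp only [LinearMap.comp_apply, h0, map_zero, LinearMap.zero_apply])
  obtain ⟨z, rfl⟩ := Submodule.mkQ_surjective _ x
  have h2 := LinearMap.congr_fun h1 z
  simp only [LinearMap.comp_apply, LinearMap.zero_apply] at h2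
  exact hι (by rw [h2, map_zero])

theorem TRC_surj (K : Type v) [Field K] (A : Type u) [Ring A] [Algebra K A] (f₀ g : TC K A)
    (X Y : FM K A) (hX : HH f₀.f X) (ι : Y →ₗ[A] X) (hι : Function.Injective ι) (n : ℕ)
    (σ : (Fin n → g.C) →ₗ[A] Y) (hσ : Function.Surjective σ) :
    ∃ σ' : (Fin n → CW f₀ g) →ₗ[A] Y, Function.Surjective σ' := by
  classical
  have h1 : ∀ i : Fin n, tr A f₀.C g.C ≤
      LinearMap.ker (σ ∘ₗ LinearMap.single A (fun _ : Fin n => (g.C : Type u)) i) := fun i =>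
    TRC_fac K A f₀ g X Y hX ι hι _
  let φ : Fin n → (CW f₀ g →ₗ[A] Y) := fun i => (tr A f₀.C g.C).liftQ _ (h1 i)
  let σ' : (Fin n → CW f₀ g) →ₗ[A] Y := ∑ i, φ i ∘ₗ LinearMap.proj i
  refine ⟨σ', fun y => ?_⟩
  obtain ⟨x, rfl⟩ := hσ y
  refine ⟨fun i => (tr A f₀.C g.C).mkQ (x i), ?_⟩
  have h2 : x = ∑ i, LinearMap.single A (fun _ : Fin n => (g.C : Type u)) i (x i) := by
    funext j
    rw [Finset.sum_apply]
    rw [Finset.sum_eq_single j]
    · simp
    · intro b _ hb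
      simp [Ne.symm hb]
    · intro h
      exact absurd (Finset.mem_univ j) h
  conv_rhs => rw [h2, map_sum]
  simp only [σ', LinearMap.sum_apply, LinearMap.comp_apply, LinearMap.proj_apply]
  refine Finset.sum_congr rfl fun i _ => ?_
  simp only [φ, Submodule.mkQ_apply, Submodule.liftQ_apply, LinearMap.comp_apply]

theorem s_TRC (K : Type v) [Field K] (A : Type u) [Ring A] [Algebra K A] : S_TRC K A := by
  intro c f₀ g θ h₀ hz
  have hC : TT g.f g.C := EZero.tt hz.rig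
  have hC0 : TT f₀.f g.C := EZero.tt hz.comp.1
  have h1 := TRC_inW K A f₀ g h₀ hz.comp
  have h2 : TT g.f (CW f₀ g) := tt_quot hC _
  refine ⟨h1, h2, ?_, ?_, ?_⟩
  · intro S hS hST
    have h3 : TT g.f ((CW f₀ g).quot S) := tt_quot h2 S
    have h4 := tt_cl h3
    rw [← hz.cl _ hS]
    refine lt_of_le_of_ne h4 fun h5 => hST ?_
    have h6 : HH g.f ((CW f₀ g).quot S) := hh_of_tt h3 h5.symm
    have h7 := TRC_zero K A f₀ g ((CW f₀ g).quot S) h6 S.mkQ
    rw [eq_top_iff]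
    intro x _
    exact (Submodule.Quotient.mk_eq_zero S).1 (LinearMap.congr_fun h7 x)
  · intro Y _ hY φ
    exact TRC_zero K A f₀ g Y hY φ
  · intro X hX
    have ht : TT g.f (X.sub (tr A g.C X)) := TT.tr K (M := X) hC
    have ht0 : TT f₀.f (X.sub (tr A g.C X)) := TT.tr K (M := X) hC0
    have h3 : InW f₀ (X.sub (tr A g.C X)) := inW_sub_of_tt hX ht0
    refine ⟨tr A g.C X, h3, inW_quot_of_sub hX h3, ht, hh_quot K (M := X) hC, ?_⟩
    obtain ⟨n, σ, hσ⟩ := tr_pi K (A := A) (C := g.C) (M := X)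
    exact ⟨n, TRC_surj K A f₀ g X (X.sub (tr A g.C X)) hX.2 (tr A g.C X).subtype
      (Submodule.injective_subtype _) n σ hσ⟩

end Pool.Agent.H51.MF
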